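import Pool.Agent.H889.FD.Desc

/-!
# Fields of definition and normalisers of the sections of open curves

Let `k` be a number field, or any field which is finitely generated over `ℚ`, and `ℓ` a prime number.
Let `C` be a smooth projective curve over `k` with function field `F`, and let `x ∈ F` be a function,
transcendental over `k`, that is, a covering `x : C → ℙ¹`.  Let `U ⊆ C` be an open subcurve, proper or
not, which is the inverse image under `x` of an open subset of `ℙ¹`.  Assume that there is a finite
covering `C' → C_k̄`, étale over `U`, such that the genus of `C'` is positive and such that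
`C' → ℙ¹` is a Galois covering whose group is an `ℓ`-group, abelian or not.  Let `f ≠ 0` be a
polynomial over `k` such that `U` contains all points different from the poles of `x` and the zeros of
`f(x)`, and such that `C' → ℙ¹` is unramified outside of infinity and the zeros of `f`; it exists always
and is no condition.

Let `M = M_U` be the maximal pro-`ℓ` extension of `k̄ F` that is unramified over `U`, so that
`Gal(M/F)` is the geometrically pro-`ℓ` fundamental group of `U`, the quotient of `π₁(U)` by the kernel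
of `π₁(U_k̄) → π₁(U_k̄)^(pro-ℓ)`.  The field `M` is Galois over `k(x)`, and for `k ⊆ k' ⊆ k̄` the group
`Gal(M/k'(x))` contains the fundamental groups of all forms of `U` over the `x`-line over `k'`, and it
is an extension of `Gal(k̄/k')` by the pro-`ℓ` group `Gal(M/k̄(x))`.

Let `H` be an open subgroup of `G_k` with fixed field `k'`.  A section over `H` is a continuous
splitting of `Gal(M/k'(x)) → Gal(k̄/k') = H`; it becomes a section of the fundamental group of `U` after
restriction to an open subgroup.  Let us say that a Galois extension `K'` of `k`, which may be infinite,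
is allowed if `K' = k`, or if `K'` has a finite residue field at some good place of `k̄`: a place prime
to `ℓ`, discrete with finite residue field on `k`, at which the roots of `f` are integral and remain
distinct.  (Examples for a number field `k`: the finite Galois extensions of `k`; the field `k(μ_{p^∞})`, where
`p ≠ ℓ` is a prime number with a good place above `p`; the field of the totally `p`-adic numbers over
`k = ℚ`.)

The normaliser `N_{K'}(s)` of a section `s` over `H`, for an allowed `K'`, is the group of all `γ` in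
`Gal(M/k(x))` for which there is a subgroup `V` of finite index of `G_k` with
`γ s(τ) γ⁻¹ = s(σ τ σ⁻¹)` for all `τ ∈ V ∩ Gal(k̄/K')`, where `σ ∈ G_k` is the image of `γ`.  We call a
valuation ring of `M` over `k` ramified if `M / k̄(x)` is ramified there; these are the valuation
rings above the cusps, that is, the points of `C` outside of `U`, if `U ≠ C`, and above the points of
`U` at which `x` is ramified.

**Theorem.**  Let `s` be a section over an open subgroup `H` of `G_k`.

1. If the restriction of `s` to a finite extension of an allowed field `K'` has its image in the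
   decomposition group of a ramified valuation ring `W`, above a cusp or not, then so has `s`, and `W` is
   unique, also for all other allowed fields and their finite extensions.
2. Assume that this is so, and that `W` is above a point of `U`.  Then for all allowed fields `K'` the
   normaliser `N_{K'}(s)` is the decomposition group of `W` in `Gal(M/k(x))`.  It contains elements
   `γ ≠ 1` of `Gal(M/k̄(x))`.
3. Assume that `s` is not the section of a ramification point in `U` in this sense.  Then the group
   `N_{K'}(s)` does not depend on the allowed field `K'`, and it is mapped isomorphically onto an open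
   subgroup `H₀ ⊇ H` of `G_k`.  The inverse map `s₀ : H₀ → Gal(M/k(x))` is a section over `H₀`, and it is
   the largest extension of `s`: every section `s'` over an open subgroup `H'`, which agrees with `s`
   over a finite extension of an allowed field, is a restriction of `s₀`; in particular `H' ⊆ H₀`.

So a section of a form of `U` over the `x`-line, over a finite extension of `k`, which is not the section
of a ramification point in `U`, has a smallest field of definition, the fixed field of `H₀`, also among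
all forms of `U`; it is equal to the field of moduli, and it is not changed by an extension of the
constants to an allowed field.  By (1), applied to `s₀`, the section `s₀` is cuspidal if `s` is cuspidal.
For `H = G_k` part (3) says that a section is determined by its restriction to `Gal(k̄/K')`, or to
a finite extension of `K'`, unless it is the section of a ramification point in `U`; part (2) says that
in this case two sections which agree over a finite extension of `K'` differ by a cocycle with values in
the finite inertia group of this point.  For the sections of the points of `U` statement (3) is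
clear: if `W` is a valuation ring of `M` above a point of `U_k̄` at which `x` is unramified, and if the
value of `x` is in `k`, then the decomposition group of `W` in `Gal(M/k(x))` is mapped isomorphically
onto `G_k`.  So the section conjecture requires (3).

The library has the case of the projective curve `d y^ℓ = f(x)`, `ℓ ∣ deg f`
(`FieldOfDefinition`), where the normaliser of the section of a branch point is not determined.  New are
open curves and their cusps, arbitrary `ℓ`-groups in place of the group of order `ℓ`, and the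
normaliser in case (2).

Proof.  (a) Let `K'` be allowed, and let `V` be a subgroup of finite index.  The group `Gal(k̄/K') ∩ V`
contains an element `φ` which acts on the residue field of a good place as a power of a Frobenius
element: if `K'` is infinite, then this is the assumption on the residue field of `K'`.  By the proof of
`SymmetricSectionsOfOpenCurves`, which uses only `φ`, an element `γ ≠ 1` of `Gal(M/k̄(x))` which commutes
with `s(Gal(k̄/K') ∩ V)` exists only if there is a ramified valuation ring `W` above `U` which is fixed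
by `s(H)`; here one uses that `K'/k` is normal.  If `W` is a ramified valuation ring which is fixed by
`s(Gal(k̄/K') ∩ V)`, then one finds on every compactified level of `M` an element `c ≠ 1` which fixes the
restriction of `W` and commutes with the image of a subgroup of this kind; the restriction of `W` is
the only valuation ring which is fixed by `c`, and this gives (1).  (b) For (2) let `ρ` be a uniformiser
at `W` in a finite extension of `k̄(x)`.  If `γ` fixes `W` and lies over `σ`, then
`s(σ τ σ⁻¹)⁻¹ γ s(τ) γ⁻¹` is an element of `Gal(M/k̄(x))` which fixes `W`, and for `τ` in an open subgroup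
it fixes `ρ`; hence it is trivial, because the tame character of the inertia group is injective.
Conversely, if `γ` normalises `s` in the sense above, then `s(Gal(k̄/K') ∩ V)` fixes `γ⁻¹ W`, so
`γ⁻¹ W = W` by (1).  (c) If `s` is not the section of a ramification point in `U`, then by (a) for every
`σ ∈ G_k` there is at most one `γ` over `σ` in `N_{K'}(s)`, and the theory of the largest extensions is
formal (`R925.Q.Desc` in the library): if `γ` normalises `s` over `K'`, then it does so over `k`, since
for `τ ∈ V` the element `s(σ τ σ⁻¹)⁻¹ γ s(τ) γ⁻¹` commutes with `s(Gal(k̄/K') ∩ V')`, hence it is trivial.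
-/

open Polynomial

namespace Pool.Agent.Results.MP_c1dca2_ag.FieldsOfDefinitionOpenCurves

section definitions

variable (ℓ : ℕ) (k F Ω : Type) [Field k] [Field F] [Field Ω] [Algebra k F] [Algebra F Ω]
  [Algebra k Ω]

/-- `k̄ F`, the compositum of `F` and of the algebraic closure of `k` in `Ω`. -/
noncomputable def geomField : IntermediateField F Ω :=
  IntermediateField.adjoin F (algebraicClosure k Ω : Set Ω)

variable {F} in
/-- `k̄(x)`, the subfield of `Ω` generated by `x` and by the algebraic closure of `k` in `Ω`. -/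
noncomputable def lineField (x : F) : IntermediateField (algebraicClosure k Ω) Ω :=
  IntermediateField.adjoin (algebraicClosure k Ω) {algebraMap F Ω x}

/-- The algebraic extension `L` of `K` in `Ω` is unramified at the valuation rings of `Ω` in the set
`P` which contain `k`: every nonzero element of `L` has the same valuation as an element of `K`.  (If
`K` is a function field of one variable over the algebraic closure of `k` and `k` has characteristic
zero, then this says that `L/K` is unramified over the corresponding points of the smooth projective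
curve.) -/
def Unramified {k K Ω : Type} [Field k] [Field K] [Field Ω] [Algebra k Ω] [Algebra K Ω]
    (P : Set (ValuationSubring Ω)) (L : IntermediateField K Ω) : Prop :=
  ∀ W ∈ P, (∀ c : k, algebraMap k Ω c ∈ W) → ∀ z ∈ L, z ≠ 0 →
    ∃ t : K, t ≠ 0 ∧ z / algebraMap K Ω t ∈ W ∧ (z / algebraMap K Ω t)⁻¹ ∈ W

/-- `L/K` is a finite Galois extension whose degree is a power of `ℓ`. -/
def FiniteProEll (ℓ : ℕ) {K Ω : Type} [Field K] [Field Ω] [Algebra K Ω]
    (L : IntermediateField K Ω) : Prop :=
  FiniteDimensional K L ∧ IsGalois K L ∧ ∃ m : ℕ, Module.finrank K L = ℓ ^ m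

/-- The maximal pro-`ℓ` extension of `K` in `Ω` which is unramified at the valuation rings in `P`
over `k`: the compositum of the finite Galois extensions of `K` whose degree is a power of `ℓ` and
which are unramified at `P`. -/
noncomputable def maxProEll (ℓ : ℕ) (k K Ω : Type) [Field k] [Field K] [Field Ω] [Algebra k Ω]
    [Algebra K Ω] (P : Set (ValuationSubring Ω)) : IntermediateField K Ω :=
  ⨆ L : {L : IntermediateField K Ω // FiniteProEll ℓ L ∧ Unramified (k := k) P L}, L.1

/-- `M_U`, the maximal pro-`ℓ` extension of `k̄ F` in `Ω` which is unramified over `U`, as an extension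
of `F`. -/
noncomputable def proEllField (U : Set (ValuationSubring F)) : IntermediateField F Ω :=
  (maxProEll ℓ k (geomField k F Ω) Ω {W | W.comap (algebraMap F Ω) ∈ U}).restrictScalars F

end definitions

section sections

variable {k F κ M Ω : Type} [Field k] [Field F] [Field κ] [Field M] [Field Ω] [Algebra k F]
  [Algebra k κ] [Algebra F M] [Algebra κ Ω] [Algebra M Ω]

/-- The automorphism `γ` of the field `M` lies over the automorphism `σ` of the field `κ`: they agree
on the elements that `M` and `κ` have in common as subfields of `Ω`. -/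
def LiesOver (Ω : Type) [Field Ω] [Algebra κ Ω] [Algebra M Ω] (σ : κ ≃ₐ[k] κ) (γ : M ≃+* M) :
    Prop :=
  ∀ (c : κ) (z : M), algebraMap M Ω z = algebraMap κ Ω c →
    algebraMap M Ω (γ z) = algebraMap κ Ω (σ c)

/-- A section over the subgroup `H` of `G_k = Gal(κ/k)`, where `κ` is an algebraic closure of `k`: a
continuous homomorphism from `H` to the group of automorphisms of `M` which fix `x ∈ F ⊆ M`, such
that the image of `σ` lies over `σ`.  (If `H = G_{k'}` is open, this is a splitting of
`Gal(M/k'(x)) → G_{k'}`.) -/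
structure SectionOver (k κ M Ω : Type) {F : Type} [Field k] [Field F] [Field κ] [Field M]
    [Field Ω] [Algebra k κ] [Algebra F M] [Algebra κ Ω] [Algebra M Ω] (x : F)
    (H : Subgroup (κ ≃ₐ[k] κ)) where
  /-- the homomorphism -/
  toHom : H →* RingAut M
  lies : ∀ σ : H, LiesOver Ω (σ : κ ≃ₐ[k] κ) (toHom σ)
  base : ∀ σ, toHom σ (algebraMap F M x) = algebraMap F M x
  cont : ∀ z : M, ∃ V : Subgroup (κ ≃ₐ[k] κ), IsOpen (V : Set (κ ≃ₐ[k] κ)) ∧
    ∀ σ : H, (σ : κ ≃ₐ[k] κ) ∈ V → toHom σ z = z

variable {x : F} {H H' : Subgroup (κ ≃ₐ[k] κ)}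

/-- The image under `s` of the elements of `S` is contained in the decomposition group of `W`. -/
def Stabilises (s : SectionOver k κ M Ω x H) (S : Subgroup (κ ≃ₐ[k] κ)) (W : ValuationSubring M) :
    Prop :=
  ∀ σ : H, (σ : κ ≃ₐ[k] κ) ∈ S → ∀ z, s.toHom σ z ∈ W ↔ z ∈ W

/-- `s' `, a section over `H'`, is a restriction of `s`, a section over `H`; in particular `H' ⊆ H`. -/
def IsRestriction (s' : SectionOver k κ M Ω x H') (s : SectionOver k κ M Ω x H) : Prop :=
  ∀ σ (h' : σ ∈ H'), ∃ h : σ ∈ H, s.toHom ⟨σ, h⟩ = s'.toHom ⟨σ, h'⟩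

/-- The sections `s` and `s'` agree over a finite extension of `K'`: they agree on
`Gal(κ/K') ∩ V` for some subgroup `V` of finite index of `G_k`, on which both are defined. -/
def AgreeOver (K' : IntermediateField k κ) (s : SectionOver k κ M Ω x H)
    (s' : SectionOver k κ M Ω x H') : Prop :=
  ∃ V : Subgroup (κ ≃ₐ[k] κ), V.FiniteIndex ∧
    ∀ τ ∈ V, τ ∈ K'.fixingSubgroup → ∃ (h : τ ∈ H) (h' : τ ∈ H'),
      s.toHom ⟨τ, h⟩ = s'.toHom ⟨τ, h'⟩

/-- The automorphism `γ` of `M` is in the normaliser of the section `s` over `K'`, and it lies over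
`σ ∈ G_k`: it fixes `x`, and for some subgroup `V` of finite index of `G_k` it satisfies
`γ s(τ) γ⁻¹ = s(σ τ σ⁻¹)` for all `τ ∈ Gal(κ/K') ∩ V`. -/
def NormalisesOver (K' : IntermediateField k κ) (s : SectionOver k κ M Ω x H) (σ : κ ≃ₐ[k] κ)
    (γ : M ≃+* M) : Prop :=
  LiesOver Ω σ γ ∧ γ (algebraMap F M x) = algebraMap F M x ∧
    ∃ V : Subgroup (κ ≃ₐ[k] κ), V.FiniteIndex ∧
      ∀ τ ∈ V, τ ∈ K'.fixingSubgroup → ∃ (h : τ ∈ H) (h' : σ * τ * σ⁻¹ ∈ H),
        ∀ z, γ (s.toHom ⟨τ, h⟩ z) = s.toHom ⟨σ * τ * σ⁻¹, h'⟩ (γ z)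

end sections

section places

/-- `V` is a valuation ring of the algebraic closure `κ` of `k` such that `V ∩ k` is a discrete
valuation ring with finite residue field, `ℓ` is invertible in `V`, and the roots of `f` are in `V` and
are distinct modulo the maximal ideal. -/
structure IsGoodPlace (ℓ : ℕ) {k κ : Type} [Field k] [Field κ] [Algebra k κ] (f : k[X])
    (V : ValuationSubring κ) : Prop where
  discrete : IsDiscreteValuationRing (V.comap (algebraMap k κ))
  finite : Finite (IsLocalRing.ResidueField (V.comap (algebraMap k κ)))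
  unit : ((ℓ : κ))⁻¹ ∈ V
  roots : ∀ e : κ, aeval e f = 0 → e ∈ V
  distinct : ∀ e e' : κ, aeval e f = 0 → aeval e' f = 0 → e ≠ e' → (e - e')⁻¹ ∈ V

/-- `K'` is a Galois extension of `k`, finite or infinite, and `K' = k`, or the residue field of `K'` at
some good place is finite. -/
def IsAllowed (ℓ : ℕ) {k κ : Type} [Field k] [Field κ] [Algebra k κ] (f : k[X])
    (K' : IntermediateField k κ) : Prop :=
  Normal k K' ∧ (K' = ⊥ ∨ ∃ V : ValuationSubring κ, IsGoodPlace ℓ f V ∧
    Finite (IsLocalRing.ResidueField (V.comap (algebraMap K' κ))))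

/-- The valuation ring `W` of `M` contains `k`, and `M / k̄(x)` is ramified at `W`: there is an element
`z ≠ 0` of `M` whose valuation is different from the valuations of all elements `t ≠ 0` of `k̄(x)`. -/
structure IsRamified (k : Type) {F Ω : Type} [Field k] [Field F] [Field Ω] [Algebra k F]
    [Algebra F Ω] [Algebra k Ω] (x : F) {M : IntermediateField F Ω} (W : ValuationSubring M) :
    Prop where
  constants : ∀ c : k, algebraMap F M (algebraMap k F c) ∈ W
  ramified : ∃ z : M, z ≠ 0 ∧ ∀ t : M, (t : Ω) ∈ lineField k Ω x → t ≠ 0 →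
    ¬ (z / t ∈ W ∧ (z / t)⁻¹ ∈ W)

variable {k F κ Ω : Type} [Field k] [Field F] [Field κ] [Field Ω] [Algebra k F]
  [Algebra k κ] [Algebra F Ω] [Algebra κ Ω] [Algebra k Ω] {M : IntermediateField F Ω} {x : F}
  {H H₀ : Subgroup (κ ≃ₐ[k] κ)}

/-- (1) If the image of `Gal(κ/K') ∩ V` under `s`, where `K'` is allowed and `V` has finite index, is
contained in the decomposition group of a ramified valuation ring `W`, then so is the image of `s`, and
`W` is the only ramified valuation ring which has this property, for any allowed field and for any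
subgroup of finite index. -/
def RamifiedRingsDescend (ℓ : ℕ) (f : k[X]) (s : SectionOver k κ M Ω x H) : Prop :=
  ∀ K' : IntermediateField k κ, IsAllowed ℓ f K' →
    ∀ V : Subgroup (κ ≃ₐ[k] κ), V.FiniteIndex →
      ∀ W : ValuationSubring M, IsRamified k x W → Stabilises s (V ⊓ K'.fixingSubgroup) W →
        Stabilises s ⊤ W ∧
        ∀ K'' : IntermediateField k κ, IsAllowed ℓ f K'' →
          ∀ V' : Subgroup (κ ≃ₐ[k] κ), V'.FiniteIndex →
            ∀ W' : ValuationSubring M, IsRamified k x W' →
              Stabilises s (V' ⊓ K''.fixingSubgroup) W' → W' = W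

/-- The valuation ring `W` of `M` is ramified and above a point of `U`, and its decomposition group
contains the image of `s`: the section `s` is a section of this ramification point. -/
def IsSectionOf (U : Set (ValuationSubring F)) (s : SectionOver k κ M Ω x H)
    (W : ValuationSubring M) : Prop :=
  IsRamified k x W ∧ W.comap (algebraMap F M) ∈ U ∧ Stabilises s ⊤ W

/-- (2) For all allowed `K'` the normaliser of `s` over `K'` consists of the automorphisms of `M` which
fix `x`, lie over an element `σ` of `G_k` and map `W` onto itself; and some of them with `σ = 1` are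
different from the identity. -/
def NormaliserIsDecompositionGroup (ℓ : ℕ) (f : k[X]) (s : SectionOver k κ M Ω x H)
    (W : ValuationSubring M) : Prop :=
  (∀ K' : IntermediateField k κ, IsAllowed ℓ f K' → ∀ (σ : κ ≃ₐ[k] κ) (γ : M ≃+* M),
    NormalisesOver K' s σ γ ↔
      (LiesOver Ω σ γ ∧ γ (algebraMap F M x) = algebraMap F M x ∧ ∀ z, γ z ∈ W ↔ z ∈ W)) ∧
  ∃ γ : M ≃+* M, γ ≠ RingEquiv.refl M ∧ LiesOver Ω (1 : κ ≃ₐ[k] κ) γ ∧
    γ (algebraMap F M x) = algebraMap F M x ∧ ∀ z, γ z ∈ W ↔ z ∈ W

/-- (3) For all allowed `K'`: the normaliser of `s` over `K'` is the image of `s₀`, a section over `H₀`;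
and every section over an open subgroup `H'`, which agrees with `s` over a finite extension of `K'`, is
a restriction of `s₀`. -/
def NormaliserIsLargestSection (ℓ : ℕ) (f : k[X]) (s : SectionOver k κ M Ω x H)
    (s₀ : SectionOver k κ M Ω x H₀) : Prop :=
  ∀ K' : IntermediateField k κ, IsAllowed ℓ f K' →
    (∀ (σ : κ ≃ₐ[k] κ) (γ : M ≃+* M), NormalisesOver K' s σ γ ↔
      ∃ h : σ ∈ H₀, s₀.toHom ⟨σ, h⟩ = γ) ∧
    ∀ H' : Subgroup (κ ≃ₐ[k] κ), IsOpen (H' : Set (κ ≃ₐ[k] κ)) →
      ∀ s' : SectionOver k κ M Ω x H', AgreeOver K' s s' → IsRestriction s' s₀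

/-- The conclusion of the theorem for the section `s` over the open subgroup `H`. -/
def HasFieldOfDefinition (ℓ : ℕ) (f : k[X]) (U : Set (ValuationSubring F))
    (s : SectionOver k κ M Ω x H) : Prop :=
  RamifiedRingsDescend ℓ f s ∧
  (∀ W : ValuationSubring M, IsSectionOf U s W → NormaliserIsDecompositionGroup ℓ f s W) ∧
  ((¬ ∃ W : ValuationSubring M, IsSectionOf U s W) →
    ∃ (H₀ : Subgroup (κ ≃ₐ[k] κ)) (s₀ : SectionOver k κ M Ω x H₀),
      IsOpen (H₀ : Set (κ ≃ₐ[k] κ)) ∧ IsRestriction s s₀ ∧ NormaliserIsLargestSection ℓ f s s₀)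

end places

section curves

/-- `F` is a finite extension of `k(x)`, where `x` is transcendental over `k`. -/
def IsCovering (k : Type) {F : Type} [Field k] [Field F] [Algebra k F] (x : F) : Prop :=
  Transcendental k x ∧ FiniteDimensional (IntermediateField.adjoin k {x}) F

/-- `U` is a set of valuation rings of `F` over `k` which is the inverse image of a set of valuation
rings of `k(x)`, and which contains the nontrivial valuation rings over `k` which contain `x` and at
which `f(x)` is a unit.  (If the trivial valuation ring is not in `U`, then `U` is the set of the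
closed points of the inverse image under `x` of an open subset of `ℙ¹` which contains all points
different from infinity and the zeros of `f`.  It makes no difference in the theorem whether the
trivial valuation ring is in `U`.) -/
structure OpenSubcurve {k F : Type} [Field k] [Field F] [Algebra k F] (f : k[X]) (x : F)
    (U : Set (ValuationSubring F)) : Prop where
  constants : ∀ O ∈ U, ∀ c : k, algebraMap k F c ∈ O
  saturated : ∀ O ∈ U, ∀ O' : ValuationSubring F, (∀ c : k, algebraMap k F c ∈ O') →
    (∀ r ∈ IntermediateField.adjoin k {x}, r ∈ O' ↔ r ∈ O) → O' ∈ U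
  contains : ∀ O : ValuationSubring F, O ≠ ⊤ → (∀ c : k, algebraMap k F c ∈ O) → x ∈ O →
    aeval x f ∉ O.nonunits → O ∈ U

/-- `L`, an extension of `k̄(x)` in `Ω`, is Galois of degree a power of `ℓ` over `k̄(x)`, it contains
`F`, it is unramified over `k̄ F` at the points of `U`, it is unramified over `k̄(x)` outside of
infinity and of the zeros of the polynomial `f`, and its genus is positive: there is a nontrivial
everywhere unramified extension of degree a power of `ℓ`. -/
structure EllGroupCovering (ℓ : ℕ) {k F Ω : Type} [Field k] [Field F] [Field Ω] [Algebra k F]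
    [Algebra F Ω] [Algebra k Ω] (f : k[X]) (x : F) (U : Set (ValuationSubring F))
    (L : IntermediateField (lineField k Ω x) Ω) : Prop where
  galois : FiniteProEll ℓ L
  contains : ∀ z : F, algebraMap F Ω z ∈ L
  etale : ∀ W : ValuationSubring Ω, (∀ c : k, algebraMap k Ω c ∈ W) →
    W.comap (algebraMap F Ω) ∈ U → ∀ z ∈ L, z ≠ 0 →
      ∃ t ∈ geomField k F Ω, t ≠ 0 ∧ z / t ∈ W ∧ (z / t)⁻¹ ∈ W
  branch : ∀ W : ValuationSubring Ω, (∀ c : k, algebraMap k Ω c ∈ W) → algebraMap F Ω x ∈ W →
    algebraMap F Ω (aeval x f) ∉ W.nonunits → ∀ z ∈ L, z ≠ 0 →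
      ∃ t ∈ lineField k Ω x, t ≠ 0 ∧ z / t ∈ W ∧ (z / t)⁻¹ ∈ W
  genus : ∃ z ∈ maxProEll ℓ k L Ω Set.univ, z ∉ L

end curves

lemma iSup_congr_prop {α : Type} [CompleteLattice α] {P Q : α → Prop} (h : ∀ L, P L ↔ Q L) :
    (⨆ L : {L // P L}, L.1) = ⨆ L : {L // Q L}, L.1 := by
  have h1 : P = Q := funext fun L => propext (h L)
  subst h1
  rfl

lemma proEll_eq (ℓ : ℕ) (k F Ω : Type) [Field k] [Field F] [Field Ω] [Algebra k F] [Algebra F Ω]
    [Algebra k Ω] (U : Set (ValuationSubring F)) :
    proEllField ℓ k F Ω U = Pool.Agent.H889.LM.proU ℓ k F Ω U := by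
  unfold proEllField Pool.Agent.H889.LM.proU maxProEll Pool.Agent.H889.LM.maxU
  congr 1
  refine iSup_congr_prop fun L => ?_
  constructor
  · rintro ⟨⟨h1, h2, h3⟩, h4⟩
    refine ⟨⟨h1, h2, h3⟩, fun W hW hPW z hz hz0 => ?_⟩
    by_cases htop : W = ⊤
    · subst htop
      exact ⟨1, one_ne_zero, div_ne_zero hz0 ((_root_.map_ne_zero _).2 one_ne_zero), trivial,
        trivial⟩
    · obtain ⟨t, ht, h5, h6⟩ := h4 W (hPW htop) hW z hz hz0
      exact ⟨t, ht, div_ne_zero hz0 ((_root_.map_ne_zero _).2 ht), h5, h6⟩
  · rintro ⟨⟨h1, h2, h3⟩, h4⟩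
    refine ⟨⟨h1, h2, h3⟩, fun W hPW hW z hz hz0 => ?_⟩
    obtain ⟨t, ht, -, h5, h6⟩ := h4 W hW (fun _ => hPW) z hz hz0
    exact ⟨t, ht, h5, h6⟩

lemma maxPro_eq (ℓ : ℕ) (k K Ω : Type) [Field k] [Field K] [Field Ω] [Algebra k Ω]
    [Algebra K Ω] : maxProEll ℓ k K Ω Set.univ = Pool.Agent.Y157.PS.maxPro ℓ k K Ω := by
  unfold maxProEll Pool.Agent.Y157.PS.maxPro
  refine iSup_congr_prop fun L => ?_
  constructor
  · rintro ⟨⟨h1, h2, h3⟩, h4⟩
    refine ⟨⟨h1, h2, h3⟩, fun W hW z hz hz0 => ?_⟩
    obtain ⟨t, ht, h5, h6⟩ := h4 W trivial hW z hz hz0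
    exact ⟨t, ht, div_ne_zero hz0 ((_root_.map_ne_zero _).2 ht), h5, h6⟩
  · rintro ⟨⟨h1, h2, h3⟩, h4⟩
    refine ⟨⟨h1, h2, h3⟩, fun W _ hW z hz hz0 => ?_⟩
    obtain ⟨t, ht, -, h5, h6⟩ := h4 W hW z hz hz0
    exact ⟨t, ht, h5, h6⟩

lemma allowed {ℓ : ℕ} {k κ : Type} [Field k] [Field κ] [Algebra k κ] {f : k[X]}
    {K' : IntermediateField k κ} (h : IsAllowed ℓ f K') : Pool.Agent.R925.Q.Lg ℓ f K' :=
  ⟨h.1, h.2.imp id fun ⟨V, hV, hf⟩ => ⟨V, ⟨hV.1, hV.2, hV.3, hV.4, hV.5⟩, hf⟩⟩

/-- the theorem, for fields `k` for which the rigidity theorem holds -/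
theorem core (k F Ω : Type) [Field k] [CharZero k]
    [Field F] [Field Ω] [Algebra k F] [Algebra F Ω] [Algebra k Ω] [IsScalarTower k F Ω]
    [IsAlgClosure F Ω] (ℓ : ℕ) [Fact ℓ.Prime] (x : F)
    (hx : IsCovering k x) (f : k[X]) (hf : f ≠ 0) (U : Set (ValuationSubring F))
    (hU : OpenSubcurve f x U)
    (L : IntermediateField (lineField k Ω x) Ω) (hL : EllGroupCovering ℓ f x U L)
    (hRR : ∀ B : Finset (algebraicClosure k Ω), (∀ θ, θ ∈ B ↔ aeval θ f = 0) →
      Pool.Agent.H889.SY.RR ℓ k (algebraicClosure k Ω) B)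
    (H : Subgroup (algebraicClosure k Ω ≃ₐ[k] algebraicClosure k Ω))
    (hHo : IsOpen (H : Set (algebraicClosure k Ω ≃ₐ[k] algebraicClosure k Ω)))
    (s : SectionOver k (algebraicClosure k Ω) (proEllField ℓ k F Ω U) Ω x H) :
    HasFieldOfDefinition ℓ f U s := by
  obtain ⟨hxt, hfin⟩ := hx
  obtain ⟨⟨hL1, hL2, hL3⟩, hFL, hLu, hLf, hbig⟩ := hL
  have hcl : IsAlgClosed Ω := IsAlgClosure.isAlgClosed F
  have halg : Algebra.IsAlgebraic F Ω := IsAlgClosure.isAlgebraic
  have hacl : IsAlgClosure k (algebraicClosure k Ω) := inferInstance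
  have hnor : Normal k (algebraicClosure k Ω) := IsAlgClosure.normal k _
  have hgal : IsGalois k (algebraicClosure k Ω) := ⟨⟩
  have hlev : Pool.Agent.Y157.PS.Lev ℓ L := ⟨hL1, hL2, hL3⟩
  have hLu' : ∀ W : ValuationSubring Ω, (∀ c : k, algebraMap k Ω c ∈ W) →
      W.comap (algebraMap F Ω) ∈ U → ∀ z ∈ L, z ≠ 0 →
      ∃ t ∈ Pool.Agent.Y157.PS.geomF k F Ω, t ≠ 0 ∧ Pool.Agent.Y157.PS.IsU W (z / t) :=
    fun W hW hWU z hz hz0 => by
      obtain ⟨t, ht, ht0, h5, h6⟩ := hLu W hW hWU z hz hz0
      exact ⟨t, ht, ht0, div_ne_zero hz0 ht0, h5, h6⟩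
  have hLf' : ∀ W : ValuationSubring Ω, (∀ c : k, algebraMap k Ω c ∈ W) → algebraMap F Ω x ∈ W →
      algebraMap F Ω (aeval x f) ∉ W.nonunits → ∀ z ∈ L, z ≠ 0 →
        ∃ t ∈ Pool.Agent.H889.PS.ratL (Ω := Ω) k x, t ≠ 0 ∧
          Pool.Agent.Y157.PS.IsU W (z / t) :=
    fun W hW hxW hfW z hz hz0 => by
      obtain ⟨t, ht, ht0, h5, h6⟩ := hLf W hW hxW hfW z hz hz0
      exact ⟨t, ht, ht0, div_ne_zero hz0 ht0, h5, h6⟩
  have hbig' : ∃ z ∈ Pool.Agent.Y157.PS.maxPro ℓ k L Ω, z ∉ L := by
    rw [maxPro_eq] at hbig
    exact hbig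
  have hpro := proEll_eq ℓ k F Ω U
  revert s
  rw [hpro]
  intro s
  have hps : ∀ {H' : Subgroup (algebraicClosure k Ω ≃ₐ[k] algebraicClosure k Ω)}
      (s' : SectionOver k (algebraicClosure k Ω) (Pool.Agent.H889.LM.proU ℓ k F Ω U) Ω x H'),
      Pool.Agent.R925.Q.PSec (Pool.Agent.H889.FD.cstU ℓ k F Ω U)
        (algebraMap F (Pool.Agent.H889.LM.proU ℓ k F Ω U) x) H' s'.toHom :=
    fun s' => ⟨fun σ c => Subtype.ext (s'.lies σ c _ rfl), s'.base⟩
  have hlies : ∀ (σ : algebraicClosure k Ω ≃ₐ[k] algebraicClosure k Ω)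
      (γ : Pool.Agent.H889.LM.proU ℓ k F Ω U ≃+* Pool.Agent.H889.LM.proU ℓ k F Ω U),
      LiesOver Ω σ γ ↔ ∀ c, γ (Pool.Agent.H889.FD.cstU ℓ k F Ω U c) =
        Pool.Agent.H889.FD.cstU ℓ k F Ω U (σ c) := by
    intro σ γ
    constructor
    · intro h c
      exact Subtype.ext (h c _ rfl)
    · intro h c z hz
      have h1 : z = Pool.Agent.H889.FD.cstU ℓ k F Ω U c := Subtype.ext hz
      rw [h1, h]
      rfl
  have hram : ∀ W : ValuationSubring (Pool.Agent.H889.LM.proU ℓ k F Ω U),
      IsRamified k x W ↔ Pool.Agent.H889.FD.RaU ℓ k U x W := by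
    intro W
    constructor
    · rintro ⟨h1, z, hz0, hzt⟩
      exact ⟨h1, z, z.2, hz0, fun t ht ht0 h => hzt t ht ht0 h.2⟩
    · rintro ⟨h1, z, -, hz0, hzt⟩
      exact ⟨h1, z, hz0, fun t ht ht0 h => hzt t ht ht0 ⟨div_ne_zero hz0 ht0, h.1, h.2⟩⟩
  have hlg : ∀ K' : IntermediateField k (algebraicClosure k Ω), IsAllowed ℓ f K' →
      K'.fixingSubgroup.Normal ∧ ∀ B : Finset (algebraicClosure k Ω),
        (∀ θ, θ ∈ B ↔ aeval θ f = 0) →
        Pool.Agent.H889.FD.RRL ℓ k (algebraicClosure k Ω) B K'.fixingSubgroup := by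
    intro K' hK'
    refine ⟨Pool.Agent.R925.Q.fix_normal K' hK'.1 hnor, fun B hB => ?_⟩
    exact Pool.Agent.H889.FD.rrl_lg hB (hRR B hB) (allowed hK')
  have hG := fun Λ => Pool.Agent.H889.FD.geoPU f hf x hxt U hU.constants hU.saturated hU.contains
    L hlev hFL hLu' hLf' hbig' H hHo s.toHom (hps s) s.cont Λ
  have hTop := hG ⊤ inferInstance (fun B hB => Pool.Agent.H889.FD.rrl_top (hRR B hB))
  obtain ⟨-, t2, -, t4, t5⟩ := hTop
  have hdesc : ∀ K' : IntermediateField k (algebraicClosure k Ω), IsAllowed ℓ f K' →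
      ∀ V : Subgroup (algebraicClosure k Ω ≃ₐ[k] algebraicClosure k Ω), V.FiniteIndex →
      ∀ W : ValuationSubring (Pool.Agent.H889.LM.proU ℓ k F Ω U), IsRamified k x W →
        Stabilises s (V ⊓ K'.fixingSubgroup) W → ∀ σ z, s.toHom σ z ∈ W ↔ z ∈ W := by
    intro K' hK' V hV W hW hsW
    exact ((hG K'.fixingSubgroup (hlg K' hK').1 (hlg K' hK').2).2.1 V hV.index_ne_zero W
      ((hram W).1 hW) (fun σ h1 h2 z => hsW σ ⟨h1, h2⟩ z)).1
  refine ⟨?_, ?_, ?_⟩
  · intro K' hK' V hV W hW hsW
    have h1 := hdesc K' hK' V hV W hW hsW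
    refine ⟨fun σ _ z => h1 σ z, fun K'' hK'' V' hV' W' hW' hsW' => ?_⟩
    have h2 := hdesc K'' hK'' V' hV' W' hW' hsW'
    exact (t2 ⊤ (by rw [Subgroup.index_top]; exact one_ne_zero) W ((hram W).1 hW)
      (fun σ _ _ z => h1 σ z)).2 ⊤ (by rw [Subgroup.index_top]; exact one_ne_zero) W'
      ((hram W').1 hW') (fun σ _ _ z => h2 σ z)
  · rintro W ⟨hW, hWU, hsW⟩
    have hsW' : ∀ σ z, s.toHom σ z ∈ W ↔ z ∈ W := fun σ z => hsW σ trivial z
    refine ⟨fun K' hK' σ γ => ⟨?_, ?_⟩, ?_⟩
    · rintro ⟨h1, h2, V, hV, h3⟩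
      refine ⟨h1, h2, ?_⟩
      have h4 : W.comap ((γ : Pool.Agent.H889.LM.proU ℓ k F Ω U →+*
          Pool.Agent.H889.LM.proU ℓ k F Ω U)) = W := by
        refine ((hG K'.fixingSubgroup (hlg K' hK').1 (hlg K' hK').2).2.1 ⊤
          (by rw [Subgroup.index_top]; exact one_ne_zero) W ((hram W).1 hW)
          (fun σ _ _ z => hsW' σ z)).2 V hV.index_ne_zero _
          (t4 σ γ ((hlies σ γ).1 h1) h2 W ((hram W).1 hW)) fun τ hτ hτ' z => ?_
        change γ (s.toHom τ z) ∈ W ↔ γ z ∈ W
        obtain ⟨a, b, hab⟩ := h3 τ hτ hτ'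
        have h5 : (⟨(τ : algebraicClosure k Ω ≃ₐ[k] algebraicClosure k Ω), a⟩ : H) = τ := rfl
        rw [h5] at hab
        rw [hab]
        exact hsW' _ _
      intro z
      have h5 : z ∈ W.comap ((γ : Pool.Agent.H889.LM.proU ℓ k F Ω U →+*
          Pool.Agent.H889.LM.proU ℓ k F Ω U)) ↔ z ∈ W := by rw [h4]
      exact h5
    · rintro ⟨h1, h2, h3⟩
      obtain ⟨V, hV, h4⟩ := t5 σ γ ((hlies σ γ).1 h1) h2 W ((hram W).1 hW) hWU hsW' h3
      exact ⟨h1, h2, V, ⟨hV⟩, fun τ hτ _ => h4 τ hτ⟩
    · obtain ⟨-, -, c3, -, -⟩ := hG ⊤ inferInstance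
        (fun B hB => Pool.Agent.H889.FD.rrl_top (hRR B hB))
      obtain ⟨⟨γ, h1, h2, h3, h4⟩, -⟩ := c3 W ((hram W).1 hW) hWU hsW'
      exact ⟨γ, h3, (hlies 1 γ).2 h1, h2, h4⟩
  · intro hnb
    obtain ⟨H₀, s₀, g1, g2, g3, g4, g5⟩ := Pool.Agent.H889.FD.descU f hf x hxt U hU.constants
      hU.saturated hU.contains L hlev hFL hLu' hLf' hbig' H hHo s.toHom (hps s) s.cont
      (fun B hB => Pool.Agent.H889.FD.rrl_top (hRR B hB)) (by
        rintro ⟨W, h1, h2, h3⟩
        exact hnb ⟨W, (hram W).2 h1, h2, fun σ _ z => h3 σ z⟩)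
    let S₀ : SectionOver k (algebraicClosure k Ω) (Pool.Agent.H889.LM.proU ℓ k F Ω U) Ω x H₀ :=
      { toHom := s₀
        lies := fun σ => (hlies _ _).2 (g2.const σ)
        base := g2.fixx
        cont := g3 }
    refine ⟨H₀, S₀, g1, fun σ h => g4 σ h, fun K' hK' => ?_⟩
    obtain ⟨m1, m2⟩ := g5 K'.fixingSubgroup (hlg K' hK').1 (hlg K' hK').2
    refine ⟨fun σ γ => ?_, fun H' _ s' ⟨V, hV, hag⟩ => m1 H' s'.toHom (hps s')
      ⟨V, hV.index_ne_zero, hag⟩⟩
    rw [show (∃ h : σ ∈ H₀, S₀.toHom ⟨σ, h⟩ = γ) ↔ (∃ h0 : σ ∈ H₀, s₀ ⟨σ, h0⟩ = γ) from Iff.rfl,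
      ← m2 σ γ]
    constructor
    · rintro ⟨h1, h2, V, hV, h3⟩
      exact ⟨(hlies σ γ).1 h1, h2, V, hV.index_ne_zero, h3⟩
    · rintro ⟨h1, h2, V, hV, h3⟩
      exact ⟨(hlies σ γ).2 h1, h2, V, ⟨hV⟩, h3⟩

/-- Let `k` be a field which is finitely generated over `ℚ`, for instance a number field, `ℓ` a prime
number, `F` the function field of a curve `C` over `k`, `Ω` an algebraic closure of `F`, and `x ∈ F` a
function which is transcendental over `k`.  Let `U ⊆ C` be open, proper or not, the inverse image
under `x` of an open subset of the line.  Assume that there is a finite covering `C' → C_k̄` which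
is étale over `U`, such that `C' → ℙ¹` is Galois with an `ℓ`-group, and such that the genus of `C'` is
positive.  Let `M = proEllField ℓ k F Ω U`, the maximal pro-`ℓ` extension of `k̄ F` unramified over `U`.
Let `s` be a section over an open subgroup `H` of `G_k`, with values in the automorphisms of `M` which
fix `x`.  Then ramified valuation rings which belong to `s` over a finite extension of an allowed field
belong to `s`, and there is at most one; the normaliser of a section of a ramification point in `U`,
over every allowed field, is the decomposition group of this point; and for all other sections it is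
the image of a section over an open subgroup `H₀ ⊇ H`, the largest extension of `s`. -/
theorem result (k F Ω : Type) [Field k] [CharZero k] (hk : (⊤ : IntermediateField ℚ k).FG)
    [Field F] [Field Ω] [Algebra k F] [Algebra F Ω] [Algebra k Ω] [IsScalarTower k F Ω]
    [IsAlgClosure F Ω] (ℓ : ℕ) [Fact ℓ.Prime] (x : F)
    (hx : IsCovering k x) (f : k[X]) (hf : f ≠ 0) (U : Set (ValuationSubring F))
    (hU : OpenSubcurve f x U)
    (L : IntermediateField (lineField k Ω x) Ω) (hL : EllGroupCovering ℓ f x U L)
    (H : Subgroup (algebraicClosure k Ω ≃ₐ[k] algebraicClosure k Ω))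
    (hH : IsOpen (H : Set (algebraicClosure k Ω ≃ₐ[k] algebraicClosure k Ω)))
    (s : SectionOver k (algebraicClosure k Ω) (proEllField ℓ k F Ω U) Ω x H) :
    HasFieldOfDefinition ℓ f U s := by
  have hcl : IsAlgClosed Ω := IsAlgClosure.isAlgClosed F
  have hacl : IsAlgClosure k (algebraicClosure k Ω) := inferInstance
  exact core k F Ω ℓ x hx f hf U hU L hL (fun B _ => Pool.Agent.H889.SY.rr_fg hk B) H hH s

end Pool.Agent.Results.MP_c1dca2_ag.FieldsOfDefinitionOpenCurves
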